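import Pool.Agent.Helper2.EG.Stmts

/-!
MP_861132_nt: module CRT, combining the steering classes modulo coprime moduli.
-/

set_option autoImplicit false

namespace Pool.Agent.Helper2.EG

/-- the congruence of `Rch` only depends on the classes -/
theorem crt_rch (m ν c u c' u' τ τ' : ℕ) (hc : c' ≡ c [MOD m]) (hu : u' ≡ u [MOD m])
    (hτ : τ' ≡ τ [MOD m]) (h : Rch m ν c u τ) : Rch m ν c' u' τ' := by
  obtain ⟨h1, h2, h3⟩ := h
  refine ⟨?_, ?_, ?_⟩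
  · unfold Nat.Coprime at h1 ⊢
    rw [hc.gcd_eq]
    exact h1
  · unfold Nat.Coprime at h2 ⊢
    rw [hu.gcd_eq]
    exact h2
  · have hl : τ' * (u' * c' ^ 2) ≡ τ * (u * c ^ 2) [MOD m] := hτ.mul (hu.mul (hc.pow 2))
    have hA : ν * (ν + c') ≡ ν * (ν + c) [MOD m] := (Nat.ModEq.refl ν).mul (hc.add_left ν)
    have hB : ν * (ν + c') + u' ≡ ν * (ν + c) + u [MOD m] := hA.add hu
    have hr : (ν * (ν + c')) * (ν * (ν + c') + u') * ((ν * (ν + c')) * (ν * (ν + c') + u') + c') ≡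
        (ν * (ν + c)) * (ν * (ν + c) + u) * ((ν * (ν + c)) * (ν * (ν + c) + u) + c) [MOD m] :=
      (hA.mul hB).mul ((hA.mul hB).add hc)
    exact hl.trans (h3.trans hr.symm)

theorem st_CRT : ST_CRT := by
  intro m m' τ _ _ hco h h' n hn
  obtain ⟨hn1, hn2⟩ := Nat.coprime_mul_iff_right.1 hn
  obtain ⟨c1, u1, h1⟩ := h n hn1
  obtain ⟨c2, u2, h2⟩ := h' n hn2
  have hc1 : (Nat.chineseRemainder hco c1 c2 : ℕ) ≡ c1 [MOD m] :=
    (Nat.chineseRemainder hco c1 c2).2.1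
  have hc2 : (Nat.chineseRemainder hco c1 c2 : ℕ) ≡ c2 [MOD m'] :=
    (Nat.chineseRemainder hco c1 c2).2.2
  have hu1 : (Nat.chineseRemainder hco u1 u2 : ℕ) ≡ u1 [MOD m] :=
    (Nat.chineseRemainder hco u1 u2).2.1
  have hu2 : (Nat.chineseRemainder hco u1 u2 : ℕ) ≡ u2 [MOD m'] :=
    (Nat.chineseRemainder hco u1 u2).2.2
  obtain ⟨a1, a2, a3⟩ := crt_rch m n c1 u1 _ _ τ τ hc1 hu1 rfl h1
  obtain ⟨b1, b2, b3⟩ := crt_rch m' n c2 u2 _ _ τ τ hc2 hu2 rfl h2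
  exact ⟨_, _, Nat.coprime_mul_iff_right.2 ⟨a1, b1⟩, Nat.coprime_mul_iff_right.2 ⟨a2, b2⟩,
    (Nat.modEq_and_modEq_iff_modEq_mul hco).1 ⟨a3, b3⟩⟩

theorem st_AMOD : ST_AMOD := by
  intro m τ τ' hτ h n hn
  obtain ⟨c, u, hr⟩ := h n hn
  exact ⟨c, u, crt_rch m n c u c u τ τ' rfl rfl hτ.symm hr⟩

end Pool.Agent.Helper2.EG
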